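import Mathlib

/-!
# Class groups of almost all real quadratic fields are generated by tiny primes: definitions
-/

set_option autoImplicit false

namespace Pool.Agent.H38R2.CG

open Finset Filter
open scoped Classical

/-- The value at 2 of the Kronecker symbol of a discriminant. -/
def chi2 (D : ℤ) : ℤ := if D % 8 = 1 then 1 else if D % 8 = 5 then -1 else 0

/-- The Kronecker symbol (D/n) for a discriminant D and a natural number n ≥ 1. -/
def chi (D : ℤ) (n : ℕ) : ℤ :=
  chi2 D ^ (padicValNat 2 n) * jacobiSym D (n / 2 ^ padicValNat 2 n)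

/-- Positive fundamental discriminants. -/
def IsFund (D : ℕ) : Prop :=
  1 < D ∧ ((D % 4 = 1 ∧ Squarefree D) ∨
    ∃ m : ℕ, D = 4 * m ∧ (m % 4 = 2 ∨ m % 4 = 3) ∧ Squarefree m)

/-- Primes in the interval (y, 2y]. -/
def PP (y : ℕ) : Finset ℕ := (Finset.Ioc y (2 * y)).filter Nat.Prime

/-- Product of a finite set of natural numbers. -/
def prodS (s : Finset ℕ) : ℕ := ∏ p ∈ s, p

/-- Tent function. -/
noncomputable def phi (t : ℝ) : ℝ := max 0 (1 - |t|)

/-- Weighted number of solutions of u^2 - D v^2 = 4 n, u > 0. -/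
noncomputable def Rsum (D n : ℕ) : ℝ :=
  ∑ u ∈ Finset.Icc 1 (4 * n), ∑ v ∈ Finset.Icc (-(4 * n : ℤ)) (4 * n),
    if ((u : ℤ) ^ 2 - (D : ℤ) * v ^ 2 = 4 * n) then
      phi (Real.log (((u : ℝ) + v * √(D : ℝ)) / ((u : ℝ) - v * √(D : ℝ)))) else 0

/-- The value L(1, chi_D), as the limit of the partial sums. -/
noncomputable def Lone (D : ℕ) : ℝ :=
  limUnder atTop (fun N : ℕ => ∑ n ∈ Finset.Icc 1 N, (chi D n : ℝ) / n)

/-- Weighted number of ideals with norm in the family. -/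
noncomputable def MD (D : ℕ) (S : Finset (Finset ℕ)) (f : Finset ℕ → ℝ) : ℝ :=
  ∑ s ∈ S, f s * ∏ p ∈ s, (1 + (chi D p : ℝ))

/-- The near collision sum. -/
noncomputable def SD (D : ℕ) (S : Finset (Finset ℕ)) (f : Finset ℕ → ℝ) : ℝ :=
  ∑ s ∈ S, ∑ t ∈ S, f s * f t * 2 ^ ((s ∩ t).card) * Rsum D (prodS s * prodS t)

/-- The class group is generated by the classes of the prime ideals of norm at most B. -/
def SmallGen (K : Type) [Field K] [NumberField K] (B : ℝ) : Prop :=
  Subgroup.closure {c : ClassGroup (NumberField.RingOfIntegers K) |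
    ∃ P : nonZeroDivisors (Ideal (NumberField.RingOfIntegers K)),
      (P : Ideal (NumberField.RingOfIntegers K)).IsPrime ∧
      ((Ideal.absNorm (P : Ideal (NumberField.RingOfIntegers K)) : ℕ) : ℝ) ≤ B ∧
      ClassGroup.mk0 P = c} = ⊤

/-- The condition of the main theorem for a squarefree d > 1. -/
def GoodD (d : ℕ) : Prop :=
  ∀ (K : Type) [Field K] [NumberField K], Module.finrank ℚ K = 2 →
    (∃ x : K, x ^ 2 = (d : K)) → SmallGen K ((Real.log d) ^ 6)

/-- The main theorem. -/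
def FinalStmt : Prop :=
  Tendsto (fun X : ℕ =>
    (((Finset.Icc 2 X).filter (fun d => Squarefree d ∧ ¬ GoodD d)).card : ℝ) / X)
    atTop (nhds 0)

/-- The modulus fixing all local data at the primes up to z. -/
def Qz (z : ℕ) : ℕ := 16 * ∏ l ∈ (Finset.Icc 3 z).filter Nat.Prime, l ^ 2

/-- Residue classes of fundamental discriminants modulo `Qz z`. -/
def FundRes (z r : ℕ) : Prop :=
  r < Qz z ∧ (r % 4 = 1 ∨ r % 16 = 8 ∨ r % 16 = 12) ∧
    ∀ l ∈ (Finset.Icc 3 z).filter Nat.Prime, ¬ l ^ 2 ∣ r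

/-- Euler product over the primes up to z of 1 - chi_r(l)/l. -/
noncomputable def PiR (z r : ℕ) : ℝ :=
  ∏ l ∈ (Finset.Icc 2 z).filter Nat.Prime, (1 - (chi r l : ℝ) / l)

/-- Integers in (X, (1+eta) X] congruent to r. -/
noncomputable def DD (z r X : ℕ) (η : ℝ) : Finset ℕ :=
  (Finset.Ioc X ⌊(1 + η) * X⌋₊).filter (fun D => D % Qz z = r)

/-- Fundamental discriminants in (X, (1+eta) X] congruent to r. -/
noncomputable def FD (z r X : ℕ) (η : ℝ) : Finset ℕ := (DD z r X η).filter IsFund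

noncomputable def yy (X : ℕ) : ℕ := ⌊(Real.log X) ^ 6 / 4⌋₊

noncomputable def kk (X : ℕ) : ℕ := ⌊(13 / 20 : ℝ) * Real.log X / Real.log (yy X)⌋₊ + 1

noncomputable def PX (X : ℕ) : Finset ℕ := PP (yy X)

/-- The family of k-element sets of primes in (y, 2y]. -/
noncomputable def SX (X : ℕ) : Finset (Finset ℕ) := (PX X).powersetCard (kk X)

/-- The number of members of the family. -/
noncomputable def NX (X : ℕ) : ℝ := ((PX X).card.choose (kk X) : ℝ)

/-- Tent window of width η' in the logarithm of the product. -/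
noncomputable def win (η' : ℝ) (j : ℤ) (s : Finset ℕ) : ℝ :=
  phi (Real.log (prodS s) / η' - j)

noncomputable def S1 (X : ℕ) (η' : ℝ) (j : ℤ) : ℝ := ∑ s ∈ SX X, win η' j s

/-- Number of residues u modulo Q v^2 with u^2 = 4 n + r v^2. -/
def rho (z r n v : ℕ) : ℕ :=
  ((Finset.range (Qz z * v ^ 2)).filter
    (fun u => u ^ 2 ≡ 4 * n + r * v ^ 2 [MOD Qz z * v ^ 2])).card

/-- The part of v composed of primes dividing `Qz z`. -/
def qpart (z v : ℕ) : ℕ :=
  ∏ p ∈ v.primeFactors.filter (fun p => p ∣ Qz z), p ^ (v.factorization p)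

/-- Number of residues u modulo Q w^2 with u^2 = 4 n + r v^2, where w = qpart z v. -/
def rhoQ (z r n v : ℕ) : ℕ :=
  ((Finset.range (Qz z * (qpart z v) ^ 2)).filter
    (fun u => u ^ 2 ≡ 4 * n + r * v ^ 2 [MOD Qz z * (qpart z v) ^ 2])).card

/-- Product over the primes dividing v and not Q of 1 + (n/p). -/
noncomputable def jprod (z n v : ℕ) : ℝ :=
  ∏ p ∈ v.primeFactors.filter (fun p => ¬ p ∣ Qz z), (1 + (jacobiSym (n : ℤ) p : ℝ))

/-- The density of solutions with given v. -/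
noncomputable def om (X : ℕ) (η v n : ℝ) : ℝ :=
  ∫ x in (X : ℝ)..((1 + η) * X),
    phi (2 * Real.arsinh (v * √x / (2 * √n))) * (1 / 2) / √(4 * n + x * v ^ 2)

/-- Mean value of `rhoQ` over n coprime to Q. -/
noncomputable def rbar (z r v : ℕ) : ℝ :=
  2 * ∏ l ∈ (Finset.Icc 2 z).filter Nat.Prime,
    (1 - if l ∣ v then 0 else (chi r l : ℝ) / ((l : ℝ) - 1))

/-- Twisted sum over the windowed family. -/
noncomputable def Sch (X : ℕ) (η' : ℝ) (j : ℤ) (M : ℕ) (ψ : DirichletCharacter ℂ M) (f : ℕ) : ℂ :=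
  ∑ s ∈ SX X, ((win η' j s : ℝ) : ℂ) * ψ (prodS s : ZMod M) * ((jacobiSym (prodS s : ℤ) f : ℤ) : ℂ)

end Pool.Agent.H38R2.CG
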